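import Pool.Agent.Helper51.Tors.Final

set_option autoImplicit false

namespace Pool.Agent.Helper51.Tors

/-- torsion `ℤ/2 × ℤ/6` provides the data attached to a point of order three -/
theorem data_of_torsion (a b c : ℕ)
    (htors : Nonempty
        (↥(AddCommGroup.torsion
            (WeierstrassCurve.mk (0 : ℚ)
              ((a : ℚ) * b + (a : ℚ) * c + (b : ℚ) * c) 0
              ((a : ℚ) * b * c * ((a : ℚ) + b + c))
              (((a : ℚ) * b * c) ^ 2)).toAffine.Point)
          ≃+ (ZMod 2 × ZMod 6))) :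
    ∃ u v w d : ℤ, Data (a : ℤ) b c u v w d := by
  obtain ⟨e⟩ := htors
  obtain ⟨P, hP0, hP3⟩ : ∃ P : (curve a b c).toAffine.Point, P ≠ 0 ∧ 3 • P = 0 := by
    let T := e.symm ((0, 2) : ZMod 2 × ZMod 6)
    refine ⟨T.1, ?_, ?_⟩
    · intro h
      have h0 : T = 0 := Subtype.ext h
      have h1 : ((0, 2) : ZMod 2 × ZMod 6) = 0 := by
        have := congrArg e h0
        simpa [T] using this
      exact absurd h1 (by decide)
    · have h0 : 3 • T = 0 := by
        have : 3 • ((0, 2) : ZMod 2 × ZMod 6) = 0 := by decide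
        calc 3 • T = e.symm (3 • ((0, 2) : ZMod 2 × ZMod 6)) := by rw [map_nsmul]
          _ = 0 := by rw [this, map_zero]
      exact congrArg Subtype.val h0
  obtain ⟨x, y, hy, hxy, hψ⟩ := exists_three a b c P hP0 hP3
  exact exists_data (a : ℤ) b c x y hy (by push_cast; exact hxy) (by push_cast; exact hψ)

end Pool.Agent.Helper51.Tors
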