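import Pool.Agent.Helper51.Tors.Parity

set_option autoImplicit false

namespace Pool.Agent.Helper51.Tors

theorem isSquare_neg_three {p : ℕ} [Fact p.Prime] (hp : p % 3 = 1) :
    IsSquare (-3 : ZMod p) := by
  have hcard : Nat.card (ZMod p)ˣ = p - 1 := by
    rw [Nat.card_eq_fintype_card, ZMod.card_units]
  have h3 : 3 ∣ Nat.card (ZMod p)ˣ := by rw [hcard]; omega
  have : Fact (Nat.Prime 3) := ⟨Nat.prime_three⟩
  obtain ⟨x, hx⟩ := exists_prime_orderOf_dvd_card' 3 h3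
  have hx3 : (x : ZMod p) ^ 3 = 1 := by
    have := pow_orderOf_eq_one x
    rw [hx] at this
    have h := congrArg Units.val this
    simpa using h
  have hx1 : (x : ZMod p) ≠ 1 := by
    intro h
    have : x = 1 := Units.ext h
    rw [this, orderOf_one] at hx
    norm_num at hx
  have hq : (x : ZMod p) ^ 2 + x + 1 = 0 := by
    have : ((x : ZMod p) - 1) * ((x : ZMod p) ^ 2 + x + 1) = 0 := by linear_combination hx3
    exact (mul_eq_zero.1 this).resolve_left (sub_ne_zero.2 hx1)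
  exact ⟨2 * x + 1, by linear_combination (-4) * hq⟩

theorem Data.isSquare {a b c u v w d : ℤ} (h : Data a b c u v w d) {p : ℕ} [Fact p.Prime]
    (hp : p % 3 = 1) (hpa : (p : ℤ) ∣ a) : IsSquare ((b : ZMod p) * c) := by
  have hw : w = -u - v := by linear_combination h.hsum
  have h1 := h.h1
  have h2 := h.h2
  rw [hw] at h1 h2
  have e1 := congrArg (Int.cast : ℤ → ZMod p) h1
  have e2 := congrArg (Int.cast : ℤ → ZMod p) h2
  push_cast at e1 e2
  have ha : (a : ZMod p) = 0 := (ZMod.intCast_zmod_eq_zero_iff_dvd a p).2 hpa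
  rw [ha, zero_mul] at e1
  rw [ha] at e2
  have e2' : (b : ZMod p) * c = - ((d : ZMod p) ^ 2 * (v ^ 3 * (-u - v - u))) := by
    rw [← e2]; ring
  rcases mul_eq_zero.1 e1.symm with h0 | h0
  · rw [e2', h0]; exact ⟨0, by ring⟩
  · rcases mul_eq_zero.1 h0 with h0 | h0
    · have hu : (u : ZMod p) = 0 := by simpa using h0
      rw [e2', hu]
      exact ⟨d * v ^ 2, by ring⟩
    · have hu : (u : ZMod p) = -2 * v := by linear_combination h0
      obtain ⟨s, hs⟩ := isSquare_neg_three hp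
      rw [e2', hu]
      refine ⟨s * (d * v ^ 2), ?_⟩
      linear_combination (d : ZMod p) ^ 2 * v ^ 4 * hs

theorem squarefree_dvd_three {s : ℕ} (hs : Squarefree s)
    (h : ∀ q : ℕ, q.Prime → q ∣ s → q = 3) : s = 1 ∨ s = 3 := by
  by_cases h1 : s = 1
  · exact Or.inl h1
  right
  obtain ⟨q, hq, hqs⟩ := Nat.exists_prime_and_dvd h1
  have := h q hq hqs
  subst this
  obtain ⟨t, rfl⟩ := hqs
  have ht : t = 1 := by
    by_contra ht
    obtain ⟨r, hr, hrt⟩ := Nat.exists_prime_and_dvd ht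
    have := h r hr (hrt.mul_left 3)
    subst this
    have h9 : 3 * 3 ∣ 3 * t := mul_dvd_mul_left 3 hrt
    have := hs 3 h9
    rw [Nat.isUnit_iff] at this
    omega
  rw [ht]

theorem gcd_form (G : ℕ) (hG : 0 < G) (h16 : 8 ∣ G) (h3 : 3 ∣ G)
    (h : ∀ p : ℕ, p.Prime → p ≠ 3 → ∃ m : ℕ, p ^ (2 * m) ∣ G ∧ ¬ p ^ (2 * m + 1) ∣ G) :
    ∃ k : ℕ, 0 < k ∧ (G = 48 * k ^ 2 ∨ G = 144 * k ^ 2) := by
  obtain ⟨s, r, hrs, hs⟩ := Nat.sq_mul_squarefree G
  have hs3 : s = 1 ∨ s = 3 := by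
    apply squarefree_dvd_three hs
    intro q hq hqs
    by_contra hq3
    obtain ⟨m, hm1, hm2⟩ := h q hq hq3
    obtain ⟨s', rfl⟩ := hqs
    have hs' : ¬ q ∣ s' := by
      intro h'
      have := hs q (mul_dvd_mul_left q h')
      exact hq.one_lt.ne' (Nat.isUnit_iff.1 this)
    have hr0 : r ≠ 0 := by rintro rfl; simp at hrs; omega
    obtain ⟨e, r', hr', hr⟩ := Nat.exists_eq_pow_mul_and_not_dvd hr0 q hq.ne_one
    have hcop : ¬ q ∣ r' ^ 2 * s' := by
      intro h'
      rcases (hq.dvd_mul).1 h' with h' | h'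
      · exact hr' (hq.dvd_of_dvd_pow h')
      · exact hs' h'
    have hGe : G = q ^ (2 * e + 1) * (r' ^ 2 * s') := by
      rw [← hrs, hr]; ring
    have hlt : e < m := by
      by_contra hle
      apply hm2
      rw [hGe]
      exact (pow_dvd_pow q (by omega)).mul_right _
    have : q ^ (2 * e + 1) * q ∣ q ^ (2 * e + 1) * (r' ^ 2 * s') := by
      rw [← pow_succ, ← hGe]
      exact (pow_dvd_pow q (by omega)).trans hm1
    exact hcop ((Nat.mul_dvd_mul_iff_left (pow_pos hq.pos _)).1 this)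
  have h16' : 16 ∣ G := by
    obtain ⟨m, hm1, hm2⟩ := h 2 Nat.prime_two (by norm_num)
    have : 2 ≤ m := by
      by_contra hle
      apply hm2
      have : (2 : ℕ) ^ (2 * m + 1) ∣ 2 ^ 3 := pow_dvd_pow 2 (by omega)
      exact this.trans h16
    have : (2 : ℕ) ^ 4 ∣ 2 ^ (2 * m) := pow_dvd_pow 2 (by omega)
    exact this.trans hm1
  rcases hs3 with rfl | rfl
  · rw [mul_one] at hrs
    have h12 : 12 ∣ r := by
      have h4 : 4 ∣ r := by
        have : 4 ^ 2 ∣ r ^ 2 := by rw [hrs]; exact h16'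
        exact (Nat.pow_dvd_pow_iff (by norm_num)).1 this
      have h3' : 3 ∣ r := by
        have : 3 ∣ r ^ 2 := by rw [hrs]; exact h3
        exact Nat.prime_three.dvd_of_dvd_pow this
      omega
    obtain ⟨k, rfl⟩ := h12
    refine ⟨k, ?_, Or.inr ?_⟩
    · rcases Nat.eq_zero_or_pos k with rfl | h
      · simp at hrs; omega
      · exact h
    · rw [← hrs]; ring
  · have h4 : 4 ∣ r := by
      have h16r : 16 ∣ r ^ 2 * 3 := by rw [hrs]; exact h16'
      have : 16 ∣ r ^ 2 := (Nat.Coprime.dvd_of_dvd_mul_right (by norm_num) h16r)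
      have : 4 ^ 2 ∣ r ^ 2 := this
      exact (Nat.pow_dvd_pow_iff (by norm_num)).1 this
    obtain ⟨k, rfl⟩ := h4
    refine ⟨k, ?_, Or.inl ?_⟩
    · rcases Nat.eq_zero_or_pos k with rfl | h
      · simp at hrs; omega
      · exact h
    · rw [← hrs]; ring

/-- main consequence of the data -/
theorem Data.main {a b c : ℕ} {u v w d : ℤ} (h : Data a b c u v w d)
    (ha : 0 < a) (hb : 0 < b) (hc : 0 < c)
    (hab : IsSquare (a * b + 1)) (hac : IsSquare (a * c + 1)) (hbc : IsSquare (b * c + 1)) :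
    ∃ k : ℕ, 0 < k ∧ (Nat.gcd (a * b) (Nat.gcd (a * c) (b * c)) = 48 * k ^ 2 ∨
      Nat.gcd (a * b) (Nat.gcd (a * c) (b * c)) = 144 * k ^ 2) := by
  have hab' : IsSquare ((a : ℤ) * b + 1) := by
    obtain ⟨r, hr⟩ := hab; exact ⟨r, by exact_mod_cast hr⟩
  have hac' : IsSquare ((a : ℤ) * c + 1) := by
    obtain ⟨r, hr⟩ := hac; exact ⟨r, by exact_mod_cast hr⟩
  have hbc' : IsSquare ((b : ℤ) * c + 1) := by
    obtain ⟨r, hr⟩ := hbc; exact ⟨r, by exact_mod_cast hr⟩
  have hba' : IsSquare ((b : ℤ) * a + 1) := by rwa [mul_comm]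
  have hca' : IsSquare ((c : ℤ) * a + 1) := by rwa [mul_comm]
  have hcb' : IsSquare ((c : ℤ) * b + 1) := by rwa [mul_comm]
  -- three
  have t1 := h.three_dvd hab' hac' hbc'
  have t2 := h.rotate.three_dvd hbc' hba' hca'
  have t3 := h.rotate.rotate.three_dvd hca' hcb' hab'
  -- two
  have d1 := h.two_dvd hab' hac' hbc'
  have d2 := h.rotate.two_dvd hbc' hba' hca'
  have d3 := h.rotate.rotate.two_dvd hca' hcb' hab'
  have key8 : ∀ x y : ℕ, IsSquare (x * y + 1) → 2 ∣ x ∨ 2 ∣ y → 8 ∣ x * y := by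
    intro x y hxy h2
    obtain ⟨r, hr⟩ := hxy
    have hev : 2 ∣ x * y := by
      rcases h2 with h | h
      · exact h.mul_right y
      · exact h.mul_left x
    have hr2 : r % 2 = 1 := by
      rcases Nat.mod_two_eq_zero_or_one r with h0 | h0
      · exfalso
        obtain ⟨q, hq⟩ : 2 ∣ r := Nat.dvd_of_mod_eq_zero h0
        have : 2 ∣ x * y + 1 := by rw [hr, hq]; exact ⟨q * (2 * q), by ring⟩
        omega
      · exact h0
    obtain ⟨q, hq⟩ : ∃ q, r = 2 * q + 1 := ⟨r / 2, by omega⟩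
    have h4 : x * y = 4 * (q * (q + 1)) := by
      have : x * y + 1 = 4 * (q * (q + 1)) + 1 := by rw [hr, hq]; ring
      omega
    obtain ⟨n, hn⟩ := Nat.even_mul_succ_self q
    rw [h4]
    have : q * (q + 1) = 2 * n := by
      have : q * (q + 1) = n + n := hn
      omega
    rw [this]
    exact ⟨n, by ring⟩
  set G := Nat.gcd (a * b) (Nat.gcd (a * c) (b * c)) with hGdef
  have hG0 : 0 < G := Nat.gcd_pos_of_pos_left _ (Nat.mul_pos ha hb)
  have hGiff : ∀ n : ℕ, n ∣ G ↔ (n ∣ a * b ∧ n ∣ a * c ∧ n ∣ b * c) := by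
    intro n
    rw [hGdef, Nat.dvd_gcd_iff, Nat.dvd_gcd_iff]
  refine gcd_form G hG0 ?_ ?_ ?_
  · rw [hGiff]
    have e1 : 2 ∣ a ∨ 2 ∣ b := by rcases d1 with h | h <;> [left; right] <;> exact_mod_cast h
    have e2 : 2 ∣ b ∨ 2 ∣ c := by rcases d2 with h | h <;> [left; right] <;> exact_mod_cast h
    have e3 : 2 ∣ c ∨ 2 ∣ a := by rcases d3 with h | h <;> [left; right] <;> exact_mod_cast h
    exact ⟨key8 a b hab e1, key8 a c hac e3.symm, key8 b c hbc e2⟩
  · rw [hGiff]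
    have e1 : 3 ∣ a ∨ 3 ∣ b := by rcases t1 with h | h <;> [left; right] <;> exact_mod_cast h
    have e2 : 3 ∣ b ∨ 3 ∣ c := by rcases t2 with h | h <;> [left; right] <;> exact_mod_cast h
    have e3 : 3 ∣ c ∨ 3 ∣ a := by rcases t3 with h | h <;> [left; right] <;> exact_mod_cast h
    have key : ∀ x y : ℕ, 3 ∣ x ∨ 3 ∣ y → 3 ∣ x * y := by
      intro x y h
      rcases h with h | h
      · exact h.mul_right y
      · exact h.mul_left x
    exact ⟨key a b e1, key a c e3.symm, key b c e2⟩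
  · intro p hp hp3
    have hpZ : Prime (p : ℤ) := Nat.prime_iff_prime_int.1 hp
    have h3 : ¬ (p : ℤ) ∣ 3 := by
      intro h
      have : p ∣ 3 := by exact_mod_cast h
      exact hp3 ((Nat.prime_dvd_prime_iff_eq hp Nat.prime_three).1 this)
    obtain ⟨m, hm1, hm2⟩ := h.evenAt hpZ h3 (by exact_mod_cast ha.ne') (by exact_mod_cast hb.ne')
      (by exact_mod_cast hc.ne')
    refine ⟨m, (hGiff _).2 ⟨?_, ?_, ?_⟩, fun hh => hm2 ?_⟩
    · exact_mod_cast hm1.1
    · rw [mul_comm a c]; exact_mod_cast hm1.2.2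
    · exact_mod_cast hm1.2.1
    · obtain ⟨g1, g2, g3⟩ := (hGiff _).1 hh
      rw [mul_comm a c] at g2
      exact ⟨by exact_mod_cast g1, by exact_mod_cast g3, by exact_mod_cast g2⟩

end Pool.Agent.Helper51.Tors
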