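import Pool.Agent.Helper51.Tors.Param

set_option autoImplicit false

namespace Pool.Agent.Helper51.Tors

theorem Data.rotate {a b c u v w d : ℤ} (h : Data a b c u v w d) : Data b c a v w u d := by
  refine ⟨by linear_combination h.hsum, ?_, h.h2, h.h3, h.h1⟩
  obtain ⟨s, t, hst⟩ := h.hcop
  have hw : w = -u - v := by linear_combination h.hsum
  rw [hw]
  exact ⟨t - s, -s, by linear_combination hst⟩

theorem Data.swap {a b c u v w d : ℤ} (h : Data a b c u v w d) : Data b a c v u w d := by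
  refine ⟨by linear_combination h.hsum, h.hcop.symm, ?_, ?_, ?_⟩
  · linear_combination -h.h2
  · linear_combination -h.h1
  · linear_combination -h.h3

/-- `a`, `b` are not both prime to three -/
theorem Data.three_dvd {a b c u v w d : ℤ} (h : Data a b c u v w d)
    (hab : IsSquare (a * b + 1)) (hac : IsSquare (a * c + 1)) (hbc : IsSquare (b * c + 1)) :
    3 ∣ a ∨ 3 ∣ b := by
  have hw : w = -u - v := by linear_combination h.hsum
  have h1 := h.h1
  have h2 := h.h2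
  rw [hw] at h1 h2
  obtain ⟨r, hr⟩ := hab
  obtain ⟨s, hs⟩ := hac
  obtain ⟨t, ht⟩ := hbc
  have e0 := congrArg (Int.cast : ℤ → ZMod 3) h1
  have e1 := congrArg (Int.cast : ℤ → ZMod 3) h2
  have e2 := congrArg (Int.cast : ℤ → ZMod 3) hr
  have e3 := congrArg (Int.cast : ℤ → ZMod 3) hs
  have e4 := congrArg (Int.cast : ℤ → ZMod 3) ht
  push_cast at e0 e1 e2 e3 e4
  have ha : ((3 : ℕ) : ℤ) ∣ a ↔ (a : ZMod 3) = 0 := (ZMod.intCast_zmod_eq_zero_iff_dvd a 3).symm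
  have hb : ((3 : ℕ) : ℤ) ∣ b ↔ (b : ZMod 3) = 0 := (ZMod.intCast_zmod_eq_zero_iff_dvd b 3).symm
  rw [show (3 : ℤ) = ((3 : ℕ) : ℤ) by norm_num, ha, hb]
  generalize (a : ZMod 3) = A at *
  generalize (b : ZMod 3) = B at *
  generalize (c : ZMod 3) = C at *
  generalize (r : ZMod 3) = R at *
  generalize (s : ZMod 3) = S at *
  generalize (t : ZMod 3) = T at *
  generalize (u : ZMod 3) = U at *
  generalize (v : ZMod 3) = V at *
  generalize (d : ZMod 3) = D at *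
  have k1 : ∀ A B R : ZMod 3, A * B + 1 = R * R → A * B = 0 ∨ A * B = 2 := by decide
  have k2 : ∀ A B C : ZMod 3, (A * B = 0 ∨ A * B = 2) → (A * C = 0 ∨ A * C = 2) →
      (B * C = 0 ∨ B * C = 2) → A = 0 ∨ B = 0 ∨ (A * B = 2 ∧ C = 0) := by decide
  rcases k2 A B C (k1 _ _ _ e2) (k1 _ _ _ e3) (k1 _ _ _ e4) with h | h | ⟨h, h'⟩
  · exact Or.inl h
  · exact Or.inr h
  · exfalso
    rw [h'] at e0 e1
    have f0 : D ^ 2 * (U ^ 3 * (V - (-U - V))) = 1 := by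
      rw [← e0]
      have : A * (0 - B) = -(A * B) := by ring
      rw [this, h]; decide
    have f1 : D ^ 2 * (V ^ 3 * (-U - V - U)) = 2 := by
      rw [← e1, sub_zero, mul_comm B A, h]
    have k3 : ∀ D U V : ZMod 3, D ^ 2 * (U ^ 3 * (V - (-U - V))) = 1 →
      D ^ 2 * (V ^ 3 * (-U - V - U)) = 2 → False := by decide
    exact k3 D U V f0 f1

/-- `a`, `b` are not both odd -/
theorem Data.two_dvd {a b c u v w d : ℤ} (h : Data a b c u v w d)
    (hab : IsSquare (a * b + 1)) (hac : IsSquare (a * c + 1)) (hbc : IsSquare (b * c + 1)) :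
    2 ∣ a ∨ 2 ∣ b := by
  have hw : w = -u - v := by linear_combination h.hsum
  have h1 := h.h1
  have h2 := h.h2
  rw [hw] at h1 h2
  obtain ⟨r, hr⟩ := hab
  obtain ⟨s, hs⟩ := hac
  obtain ⟨t, ht⟩ := hbc
  have e2 := congrArg (Int.cast : ℤ → ZMod 8) hr
  have e3 := congrArg (Int.cast : ℤ → ZMod 8) hs
  have e4 := congrArg (Int.cast : ℤ → ZMod 8) ht
  push_cast at e2 e3 e4
  by_contra hcon
  push Not at hcon
  obtain ⟨ha, hb⟩ := hcon
  have ka : (a : ZMod 8) = 1 ∨ (a : ZMod 8) = 3 ∨ (a : ZMod 8) = 5 ∨ (a : ZMod 8) = 7 := by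
    have : a % 8 = 1 ∨ a % 8 = 3 ∨ a % 8 = 5 ∨ a % 8 = 7 := by omega
    have h0 : (a : ZMod 8) = ((a % 8 : ℤ) : ZMod 8) := by
      rw [show (8 : ℤ) = ((8 : ℕ) : ℤ) by norm_num, ZMod.intCast_mod]
    rcases this with h | h | h | h <;> rw [h0, h] <;> simp
  have kb : (b : ZMod 8) = 1 ∨ (b : ZMod 8) = 3 ∨ (b : ZMod 8) = 5 ∨ (b : ZMod 8) = 7 := by
    have : b % 8 = 1 ∨ b % 8 = 3 ∨ b % 8 = 5 ∨ b % 8 = 7 := by omega
    have h0 : (b : ZMod 8) = ((b % 8 : ℤ) : ZMod 8) := by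
      rw [show (8 : ℤ) = ((8 : ℕ) : ℤ) by norm_num, ZMod.intCast_mod]
    rcases this with h | h | h | h <;> rw [h0, h] <;> simp
  have k1 : ∀ A B R : ZMod 8, A * B + 1 = R * R → A * B = 0 ∨ A * B = 3 ∨ A * B = 7 := by decide
  have k1' : ∀ A : ZMod 8, A * 4 = 4 → (A = 1 ∨ A = 3 ∨ A = 5 ∨ A = 7) := by decide
  have k2 : ∀ A B C : ZMod 8, (A = 1 ∨ A = 3 ∨ A = 5 ∨ A = 7) →
      (B = 1 ∨ B = 3 ∨ B = 5 ∨ B = 7) → (A * B = 0 ∨ A * B = 3 ∨ A * B = 7) →
      (A * C = 0 ∨ A * C = 3 ∨ A * C = 7) →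
      (B * C = 0 ∨ B * C = 3 ∨ B * C = 7) → ((A * B = 3 ∨ A * B = 7) ∧ C = 0) := by decide
  obtain ⟨hAB, hC⟩ := k2 _ _ _ ka kb (k1 _ _ _ e2) (k1 _ _ _ e3) (k1 _ _ _ e4)
  -- descend to mod 4
  have hc8 : (8 : ℤ) ∣ c := by
    have := (ZMod.intCast_zmod_eq_zero_iff_dvd c 8).1 hC
    exact_mod_cast this
  have hab4 : (4 : ℤ) ∣ a * b + 1 := by
    rcases hAB with h | h
    · have : ((a * b - 3 : ℤ) : ZMod 8) = 0 := by push_cast; rw [h]; decide
      have := (ZMod.intCast_zmod_eq_zero_iff_dvd _ 8).1 this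
      push_cast at this
      omega
    · have : ((a * b - 7 : ℤ) : ZMod 8) = 0 := by push_cast; rw [h]; decide
      have := (ZMod.intCast_zmod_eq_zero_iff_dvd _ 8).1 this
      push_cast at this
      omega
  have e0 := congrArg (Int.cast : ℤ → ZMod 4) h1
  have e1 := congrArg (Int.cast : ℤ → ZMod 4) h2
  push_cast at e0 e1
  have hC4 : (c : ZMod 4) = 0 := by
    rw [ZMod.intCast_zmod_eq_zero_iff_dvd c 4]
    push_cast
    omega
  have hAB4 : (a : ZMod 4) * b = 3 := by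
    have : ((a * b + 1 : ℤ) : ZMod 4) = 0 := by
      rw [ZMod.intCast_zmod_eq_zero_iff_dvd _ 4]
      push_cast
      exact hab4
    push_cast at this
    have h2 : (a : ZMod 4) * b = -1 := by linear_combination this
    rw [h2]; decide
  rw [hC4] at e0 e1
  have f0 : (d : ZMod 4) ^ 2 * (u ^ 3 * (v - (-u - v))) = 1 := by
    rw [← e0]
    have : (a : ZMod 4) * (0 - b) = -(a * b) := by ring
    rw [this, hAB4]; decide
  have f1 : (d : ZMod 4) ^ 2 * (v ^ 3 * (-u - v - u)) = 3 := by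
    rw [← e1, sub_zero, mul_comm (b : ZMod 4) a, hAB4]
  have k3 : ∀ D U V : ZMod 4, D ^ 2 * (U ^ 3 * (V - (-U - V))) = 1 →
      D ^ 2 * (V ^ 3 * (-U - V - U)) = 3 → False := by decide
  exact k3 _ _ _ f0 f1

end Pool.Agent.Helper51.Tors
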