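import Pool.Agent.Helper51.Tors.Point

set_option autoImplicit false

namespace Pool.Agent.Helper51.Tors

theorem squares_of_three (u v w y : ℚ) (hy : y ≠ 0) (h1 : y ^ 2 = u * v * w)
    (h2 : (u * v + u * w + v * w) ^ 2 = 4 * y ^ 2 * (u + v + w)) :
    ∃ X Y Z : ℚ, X ≠ 0 ∧ Y ≠ 0 ∧ Z ≠ 0 ∧ u = X ^ 2 ∧ v = Y ^ 2 ∧ w = Z ^ 2 ∧
      X * (Y + Z) = Y * Z := by
  have huvw : u * v * w ≠ 0 := by rw [← h1]; exact pow_ne_zero 2 hy
  have hu : u ≠ 0 := by rintro rfl; simp at huvw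
  have hv : v ≠ 0 := by rintro rfl; simp at huvw
  have hw : w ≠ 0 := by rintro rfl; simp at huvw
  have e1 : (u * v + u * w - v * w) ^ 2 = 4 * u ^ 2 * (v * w) := by
    rw [h1] at h2; linear_combination h2
  have e2 : (u * v - u * w + v * w) ^ 2 = 4 * v ^ 2 * (u * w) := by
    rw [h1] at h2; linear_combination h2
  have e3 : (-(u * v) + u * w + v * w) ^ 2 = 4 * w ^ 2 * (u * v) := by
    rw [h1] at h2; linear_combination h2
  have f1 : v * w = ((u * v + u * w - v * w) / (2 * u)) ^ 2 := by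
    rw [div_pow, e1]; field_simp; ring
  have f2 : u * w = ((u * v - u * w + v * w) / (2 * v)) ^ 2 := by
    rw [div_pow, e2]; field_simp; ring
  have f3 : u * v = ((-(u * v) + u * w + v * w) / (2 * w)) ^ 2 := by
    rw [div_pow, e3]; field_simp; ring
  generalize (u * v + u * w - v * w) / (2 * u) = m1 at f1
  generalize (u * v - u * w + v * w) / (2 * v) = m2 at f2
  generalize (-(u * v) + u * w + v * w) / (2 * w) = m3 at f3
  have hm1 : m1 ≠ 0 := by rintro rfl; exact mul_ne_zero hv hw (by simpa using f1)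
  have hm2 : m2 ≠ 0 := by rintro rfl; exact mul_ne_zero hu hw (by simpa using f2)
  have hm3 : m3 ≠ 0 := by rintro rfl; exact mul_ne_zero hu hv (by simpa using f3)
  have gu : u = (y / m1) ^ 2 := by
    rw [div_pow, h1, ← f1]; field_simp
  have gv : v = (y / m2) ^ 2 := by
    rw [div_pow, h1, ← f2]; field_simp
  have gw : w = (y / m3) ^ 2 := by
    rw [div_pow, h1, ← f3]; field_simp
  have hX : y / m1 ≠ 0 := div_ne_zero hy hm1
  have hY : y / m2 ≠ 0 := div_ne_zero hy hm2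
  have hZ : y / m3 ≠ 0 := div_ne_zero hy hm3
  generalize y / m1 = X at gu hX
  generalize y / m2 = Y at gv hY
  generalize y / m3 = Z at gw hZ
  rw [gu, gv, gw] at e1
  have e4 : (X ^ 2 * Y ^ 2 + X ^ 2 * Z ^ 2 - Y ^ 2 * Z ^ 2 - 2 * X ^ 2 * (Y * Z)) *
      (X ^ 2 * Y ^ 2 + X ^ 2 * Z ^ 2 - Y ^ 2 * Z ^ 2 + 2 * X ^ 2 * (Y * Z)) = 0 := by
    linear_combination e1
  rcases mul_eq_zero.1 e4 with h | h
  · have h' : (X * (Y - Z) - Y * Z) * (X * (Y - Z) + Y * Z) = 0 := by linear_combination h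
    rcases mul_eq_zero.1 h' with h'' | h''
    · exact ⟨-X, Y, -Z, neg_ne_zero.2 hX, hY, neg_ne_zero.2 hZ, by rw [gu]; ring, gv,
        by rw [gw]; ring, by linear_combination -h''⟩
    · exact ⟨X, Y, -Z, hX, hY, neg_ne_zero.2 hZ, gu, gv, by rw [gw]; ring, by linear_combination h''⟩
  · have h' : (X * (Y + Z) - Y * Z) * (X * (Y + Z) + Y * Z) = 0 := by linear_combination h
    rcases mul_eq_zero.1 h' with h'' | h''
    · exact ⟨X, Y, Z, hX, hY, hZ, gu, gv, gw, by linear_combination h''⟩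
    · exact ⟨-X, Y, Z, neg_ne_zero.2 hX, hY, hZ, by rw [gu]; ring, gv, gw,
        by linear_combination -h''⟩

theorem dvd_three_of (α β g : ℤ) (h : IsCoprime α β) (h1 : g ∣ α ^ 3 * (α + 2 * β))
    (h2 : g ∣ β ^ 3 * (β + 2 * α)) : g ∣ 3 := by
  have c1 : IsCoprime α (β + 2 * α) := by
    obtain ⟨s, t, hst⟩ := h
    exact ⟨s - 2 * t, t, by linear_combination hst⟩
  have c2 : IsCoprime β (α + 2 * β) := by
    obtain ⟨s, t, hst⟩ := h
    exact ⟨t - 2 * s, s, by linear_combination hst⟩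
  have ga : IsCoprime g α := by
    have : IsCoprime α (β ^ 3 * (β + 2 * α)) := (h.pow_right).mul_right c1
    exact (this.of_isCoprime_of_dvd_right h2).symm
  have gb : IsCoprime g β := by
    have : IsCoprime β (α ^ 3 * (α + 2 * β)) := (h.symm.pow_right).mul_right c2
    exact (this.of_isCoprime_of_dvd_right h1).symm
  have h3 : g ∣ α + 2 * β := (ga.pow_right).dvd_of_dvd_mul_left h1
  have h4 : g ∣ β + 2 * α := (gb.pow_right).dvd_of_dvd_mul_left h2
  have h5 : g ∣ 3 * β := by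
    have := dvd_sub (h3.mul_left 2) h4
    have e : 2 * (α + 2 * β) - (β + 2 * α) = 3 * β := by ring
    rwa [e] at this
  exact gb.dvd_of_dvd_mul_right h5

/-- The data attached to a point of order three. -/
structure Data (a b c u v w d : ℤ) : Prop where
  hsum : u + v + w = 0
  hcop : IsCoprime u v
  h1 : a * (c - b) = d ^ 2 * (u ^ 3 * (v - w))
  h2 : b * (a - c) = d ^ 2 * (v ^ 3 * (w - u))
  h3 : c * (b - a) = d ^ 2 * (w ^ 3 * (u - v))

theorem exists_data (a b c : ℤ) (x : ℚ) (y : ℚ) (hy : y ≠ 0)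
    (h1 : y ^ 2 = (x + a * b) * (x + a * c) * (x + b * c))
    (h2 : (3 * x ^ 2 + 2 * ((a : ℚ) * b + a * c + b * c) * x + a * b * c * (a + b + c)) ^ 2
        = 4 * y ^ 2 * (a * b + a * c + b * c + 3 * x)) :
    ∃ u v w d : ℤ, Data a b c u v w d := by
  obtain ⟨X, Y, Z, hX, hY, hZ, hu, hv, hw, hXYZ⟩ :=
    squares_of_three (x + a * b) (x + a * c) (x + b * c) y hy h1 (by linear_combination h2)
  have hYZ : Y + Z ≠ 0 := by
    intro h
    rw [h, mul_zero] at hXYZ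
    exact mul_ne_zero hY hZ hXYZ.symm
  -- ρ = Z / Y = β / α
  set ρ : ℚ := Z / Y with hρ
  have hZ' : Z = ρ * Y := by rw [hρ]; field_simp
  have hden : (ρ.den : ℚ) ≠ 0 := by exact_mod_cast ρ.den_nz
  have hρ' : ρ = ρ.num / ρ.den := (Rat.num_div_den ρ).symm
  obtain ⟨α, hα⟩ : ∃ α : ℤ, α = (ρ.den : ℤ) := ⟨_, rfl⟩
  obtain ⟨β, hβ⟩ : ∃ β : ℤ, β = ρ.num := ⟨_, rfl⟩
  have hαq : (α : ℚ) ≠ 0 := by rw [hα]; exact_mod_cast ρ.den_nz
  have hρβ : ρ * α = β := by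
    rw [hα, hβ]; push_cast; exact Rat.mul_den_eq_num ρ
  have hcop : IsCoprime α β := by
    rw [hα, hβ]
    rw [Int.isCoprime_iff_gcd_eq_one, Int.gcd_comm]
    simpa [Int.gcd, Int.natAbs_natCast] using ρ.reduced
  have hsum0 : ((α : ℚ) + β) ≠ 0 := by
    intro h
    apply hYZ
    rw [hZ']
    have : (α : ℚ) * (Y + ρ * Y) = (α + β) * Y := by rw [← hρβ]; ring
    rw [h, zero_mul] at this
    exact (mul_eq_zero.1 this).resolve_left hαq
  set δ : ℚ := Y / (α * (α + β)) with hδ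
  have hYδ : Y = δ * (α * (α + β)) := by rw [hδ]; field_simp
  have hZδ : Z = δ * (β * (α + β)) := by
    rw [hZ', hYδ, ← hρβ]; ring
  have hXδ : X = δ * (α * β) := by
    have h3 : X * (Y + Z) = (δ * (α * β)) * (Y + Z) := by
      rw [hXYZ, hYδ, hZδ]; ring
    exact mul_right_cancel₀ hYZ h3
  have hA : ((a * (c - b) : ℤ) : ℚ) = δ ^ 2 * (α ^ 3 * (α + 2 * β)) := by
    push_cast
    have : (a : ℚ) * (c - b) = Y ^ 2 - X ^ 2 := by rw [← hv, ← hu]; ring
    rw [this, hYδ, hXδ]; ring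
  have hB : ((b * (c - a) : ℤ) : ℚ) = δ ^ 2 * (β ^ 3 * (β + 2 * α)) := by
    push_cast
    have : (b : ℚ) * (c - a) = Z ^ 2 - X ^ 2 := by rw [← hw, ← hu]; ring
    rw [this, hZδ, hXδ]; ring
  -- δ is an integer
  obtain ⟨N, hN⟩ : ∃ N : ℤ, (N : ℚ) = 3 * δ ^ 2 := by
    have hg := dvd_three_of α β (Int.gcd (α ^ 3 * (α + 2 * β)) (β ^ 3 * (β + 2 * α))) hcop
      (Int.gcd_dvd_left _ _) (Int.gcd_dvd_right _ _)
    obtain ⟨m, hm⟩ := hg
    have hbez := Int.gcd_eq_gcd_ab (α ^ 3 * (α + 2 * β)) (β ^ 3 * (β + 2 * α))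
    refine ⟨m * (a * (c - b) * Int.gcdA (α ^ 3 * (α + 2 * β)) (β ^ 3 * (β + 2 * α))
      + b * (c - a) * Int.gcdB (α ^ 3 * (α + 2 * β)) (β ^ 3 * (β + 2 * α))), ?_⟩
    have hm' : (3 : ℚ) = ((Int.gcd (α ^ 3 * (α + 2 * β)) (β ^ 3 * (β + 2 * α)) : ℤ) : ℚ) * m := by
      exact_mod_cast hm
    have hbez' : (((Int.gcd (α ^ 3 * (α + 2 * β)) (β ^ 3 * (β + 2 * α)) : ℤ)) : ℚ) =
        (α ^ 3 * (α + 2 * β)) * Int.gcdA (α ^ 3 * (α + 2 * β)) (β ^ 3 * (β + 2 * α)) +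
        (β ^ 3 * (β + 2 * α)) * Int.gcdB (α ^ 3 * (α + 2 * β)) (β ^ 3 * (β + 2 * α)) := by
      exact_mod_cast hbez
    push_cast at hA hB ⊢
    rw [hA, hB, hm', hbez']
    ring
  have hδint : ∃ d : ℤ, (d : ℚ) = δ := by
    have hden2 : (δ.den : ℚ) ≠ 0 := by exact_mod_cast δ.den_nz
    have h5 : (3 : ℚ) * δ.num ^ 2 = N * (δ.den : ℚ) ^ 2 := by
      rw [hN]
      have : δ * δ.den = δ.num := Rat.mul_den_eq_num δ
      rw [← this]; ring
    have h6 : (3 : ℤ) * δ.num ^ 2 = N * (δ.den : ℤ) ^ 2 := by exact_mod_cast h5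
    have hc : IsCoprime ((δ.den : ℤ) ^ 2) (δ.num ^ 2) := by
      apply IsCoprime.pow
      rw [Int.isCoprime_iff_gcd_eq_one, Int.gcd_comm]
      simpa [Int.gcd, Int.natAbs_natCast] using δ.reduced
    have h7 : ((δ.den : ℤ) ^ 2) ∣ 3 := by
      apply hc.dvd_of_dvd_mul_right
      exact ⟨N, by rw [h6]; ring⟩
    have h8 : δ.den ^ 2 ∣ 3 := by exact_mod_cast h7
    have h9 : δ.den = 1 := by
      have h10 : δ.den ^ 2 ≤ 3 := Nat.le_of_dvd (by norm_num) h8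
      have h11 : δ.den < 2 := by nlinarith
      have := δ.den_pos
      omega
    refine ⟨δ.num, ?_⟩
    have : δ * δ.den = δ.num := Rat.mul_den_eq_num δ
    rw [h9] at this
    simpa using this.symm
  obtain ⟨d, hd⟩ := hδint
  refine ⟨α, β, -α - β, d, ⟨by ring, hcop, ?_, ?_, ?_⟩⟩
  · rw [← hd] at hA
    have : a * (c - b) = d ^ 2 * (α ^ 3 * (α + 2 * β)) := by exact_mod_cast hA
    rw [this]; ring
  · rw [← hd] at hB
    have : b * (c - a) = d ^ 2 * (β ^ 3 * (β + 2 * α)) := by exact_mod_cast hB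
    have e : b * (a - c) = -(b * (c - a)) := by ring
    rw [e, this]; ring
  · rw [← hd] at hA hB
    have e1 : a * (c - b) = d ^ 2 * (α ^ 3 * (α + 2 * β)) := by exact_mod_cast hA
    have e2 : b * (c - a) = d ^ 2 * (β ^ 3 * (β + 2 * α)) := by exact_mod_cast hB
    have e : c * (b - a) = b * (c - a) - a * (c - b) := by ring
    rw [e, e1, e2]; ring

end Pool.Agent.Helper51.Tors
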