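import Pool.Agent.Helper51.Tors.NT

set_option autoImplicit false

namespace Pool.Agent.Helper51.Tors

theorem Data.not_dvd_both {a b c u v w d : ℤ} (h : Data a b c u v w d) {p : ℤ}
    (h1 : p ∣ u ^ 3 * (v - w)) (h2 : p ∣ v ^ 3 * (w - u)) : p ∣ 3 := by
  have hw : w = -u - v := by linear_combination h.hsum
  apply dvd_three_of u v p h.hcop
  · have e : u ^ 3 * (u + 2 * v) = u ^ 3 * (v - w) := by rw [hw]; ring
    rw [e]; exact h1
  · have e : v ^ 3 * (v + 2 * u) = -(v ^ 3 * (w - u)) := by rw [hw]; ring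
    rw [e]; exact (dvd_neg).2 h2

theorem Data.even_add {a b c u v w d : ℤ} (h : Data a b c u v w d) {p : ℤ} (hp : Prime p)
    (h3 : ¬ p ∣ 3) {i j k : ℕ} {a' b' c' : ℤ} (ha : a = p ^ i * a') (hb : b = p ^ j * b')
    (hc : c = p ^ k * c') (ha' : ¬ p ∣ a') (hb' : ¬ p ∣ b') (hij : i ≤ j) (hjk : j ≤ k) :
    ∃ m, i + j = 2 * m := by
  rcases hij.eq_or_lt with hij' | hij'
  · exact ⟨i, by omega⟩
  obtain ⟨l, rfl⟩ := Nat.exists_eq_add_of_lt hij'
  obtain ⟨l', rfl⟩ := Nat.exists_eq_add_of_le hjk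
  have h1 := h.h1
  have h2 := h.h2
  have hX : ¬ p ∣ b' * (a' - p ^ (l + l' + 1) * c') := by
    intro hx
    rcases hp.dvd_or_dvd hx with h | h
    · exact hb' h
    · apply ha'
      have : p ∣ p ^ (l + l' + 1) * c' := Dvd.dvd.mul_right (dvd_pow_self p (by omega)) _
      have := dvd_add h this
      simpa using this
  have e2 : p ^ (2 * i + l + 1) * (b' * (a' - p ^ (l + l' + 1) * c'))
      = d ^ 2 * (v ^ 3 * (w - u)) := by
    rw [← h2, ha, hb, hc]; ring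
  have hp0 : p ≠ 0 := hp.ne_zero
  have hX0 : b' * (a' - p ^ (l + l' + 1) * c') ≠ 0 := fun h => hX (h ▸ dvd_zero p)
  have hd0 : d ≠ 0 := by
    rintro rfl
    have : p ^ (2 * i + l + 1) * (b' * (a' - p ^ (l + l' + 1) * c')) = 0 := by rw [e2]; ring
    exact mul_ne_zero (pow_ne_zero _ hp0) hX0 this
  have hfin : FiniteMultiplicity p d := by
    rw [Int.finiteMultiplicity_iff]
    refine ⟨?_, hd0⟩
    intro h1
    exact hp.not_isUnit (Int.isUnit_iff_natAbs_eq.2 h1)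
  obtain ⟨d', hd, hd'⟩ := hfin.exists_eq_pow_mul_and_not_dvd
  generalize multiplicity p d = δ at hd
  rcases lt_trichotomy (2 * i + l + 1) (2 * δ) with hlt | heq | hgt
  · exfalso
    obtain ⟨q, hq⟩ := Nat.exists_eq_add_of_lt hlt
    apply hX
    have e3 : p ^ (2 * i + l + 1) * (b' * (a' - p ^ (l + l' + 1) * c'))
        = p ^ (2 * i + l + 1) * (p ^ (q + 1) * (d' ^ 2 * (v ^ 3 * (w - u)))) := by
      rw [e2, hd, mul_pow, ← pow_mul, mul_comm δ 2, hq, ← mul_assoc (p ^ (2 * i + l + 1)), ← pow_add,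
        add_assoc (2 * i + l + 1) q 1]
      ring
    have e4 := mul_left_cancel₀ (pow_ne_zero _ hp0) e3
    rw [e4]
    exact Dvd.dvd.mul_right (dvd_pow_self p (by omega)) _
  · exact ⟨δ, by omega⟩
  · exfalso
    obtain ⟨q, hq⟩ := Nat.exists_eq_add_of_lt hgt
    apply h3
    have e1 : p ^ (2 * i + l + 1) * (a' * (p ^ l' * c' - b')) = d ^ 2 * (u ^ 3 * (v - w)) := by
      rw [← h1, ha, hb, hc]; ring
    have hd2 : d ^ 2 = p ^ (2 * δ) * d' ^ 2 := by rw [hd]; ring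
    rw [hq, hd2] at e1 e2
    have e1' : p ^ (2 * δ) * (p ^ (q + 1) * (a' * (p ^ l' * c' - b'))) =
        p ^ (2 * δ) * (d' ^ 2 * (u ^ 3 * (v - w))) := by
      rw [← mul_assoc (p ^ (2 * δ)) (p ^ (q + 1)), ← pow_add, ← add_assoc, e1]; ring
    have e2' : p ^ (2 * δ) * (p ^ (q + 1) * (b' * (a' - p ^ (l + l' + 1) * c'))) =
        p ^ (2 * δ) * (d' ^ 2 * (v ^ 3 * (w - u))) := by
      rw [← mul_assoc (p ^ (2 * δ)) (p ^ (q + 1)), ← pow_add, ← add_assoc, e2]; ring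
    have f1 := mul_left_cancel₀ (pow_ne_zero _ hp0) e1'
    have f2 := mul_left_cancel₀ (pow_ne_zero _ hp0) e2'
    have hpd : ¬ p ∣ d' ^ 2 := fun h => hd' (hp.dvd_of_dvd_pow h)
    have g1 : p ∣ u ^ 3 * (v - w) := by
      have : p ∣ d' ^ 2 * (u ^ 3 * (v - w)) := by
        rw [← f1]; exact Dvd.dvd.mul_right (dvd_pow_self p (by omega)) _
      exact (hp.dvd_or_dvd this).resolve_left hpd
    have g2 : p ∣ v ^ 3 * (w - u) := by
      have : p ∣ d' ^ 2 * (v ^ 3 * (w - u)) := by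
        rw [← f2]; exact Dvd.dvd.mul_right (dvd_pow_self p (by omega)) _
      exact (hp.dvd_or_dvd this).resolve_left hpd
    exact h.not_dvd_both g1 g2

/-- the exact power of `p` dividing the three products has even exponent -/
def EvenAt (p a b c : ℤ) : Prop :=
  ∃ m : ℕ, (p ^ (2 * m) ∣ a * b ∧ p ^ (2 * m) ∣ b * c ∧ p ^ (2 * m) ∣ c * a) ∧
    ¬ (p ^ (2 * m + 1) ∣ a * b ∧ p ^ (2 * m + 1) ∣ b * c ∧ p ^ (2 * m + 1) ∣ c * a)

theorem EvenAt.rotate {p a b c : ℤ} (h : EvenAt p a b c) : EvenAt p b c a := by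
  obtain ⟨m, h1, h2⟩ := h
  exact ⟨m, ⟨h1.2.1, h1.2.2, h1.1⟩, fun h => h2 ⟨h.2.2, h.1, h.2.1⟩⟩

theorem EvenAt.swap {p a b c : ℤ} (h : EvenAt p a b c) : EvenAt p b a c := by
  obtain ⟨m, h1, h2⟩ := h
  refine ⟨m, ⟨?_, ?_, ?_⟩, fun h => h2 ⟨?_, ?_, ?_⟩⟩
  · rw [mul_comm b a]; exact h1.1
  · rw [mul_comm a c]; exact h1.2.2
  · rw [mul_comm c b]; exact h1.2.1
  · rw [mul_comm a b]; exact h.1
  · rw [mul_comm b c]; exact h.2.2
  · rw [mul_comm c a]; exact h.2.1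

theorem Data.evenAt_aux {a b c u v w d : ℤ} (h : Data a b c u v w d) {p : ℤ} (hp : Prime p)
    (h3 : ¬ p ∣ 3) {i j k : ℕ} {a' b' c' : ℤ} (ha : a = p ^ i * a') (hb : b = p ^ j * b')
    (hc : c = p ^ k * c') (ha' : ¬ p ∣ a') (hb' : ¬ p ∣ b') (hij : i ≤ j) (hjk : j ≤ k) :
    EvenAt p a b c := by
  obtain ⟨m, hm⟩ := h.even_add hp h3 ha hb hc ha' hb' hij hjk
  refine ⟨m, ⟨?_, ?_, ?_⟩, ?_⟩
  · rw [ha, hb, ← hm]; exact ⟨a' * b', by ring⟩
  · have : p ^ (2 * m) ∣ p ^ (j + k) := pow_dvd_pow p (by omega)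
    exact this.trans (by rw [hb, hc]; exact ⟨b' * c', by ring⟩)
  · have : p ^ (2 * m) ∣ p ^ (k + i) := pow_dvd_pow p (by omega)
    exact this.trans (by rw [ha, hc]; exact ⟨c' * a', by ring⟩)
  · rintro ⟨h1, -, -⟩
    have e : a * b = p ^ (2 * m) * (a' * b') := by rw [ha, hb, ← hm]; ring
    rw [e, pow_succ] at h1
    have := (mul_dvd_mul_iff_left (pow_ne_zero (2 * m) hp.ne_zero)).1 h1
    rcases hp.dvd_or_dvd this with h | h
    · exact ha' h
    · exact hb' h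

theorem Data.evenAt {a b c u v w d : ℤ} (h : Data a b c u v w d) {p : ℤ} (hp : Prime p)
    (h3 : ¬ p ∣ 3) (ha0 : a ≠ 0) (hb0 : b ≠ 0) (hc0 : c ≠ 0) : EvenAt p a b c := by
  have hpu : p.natAbs ≠ 1 := fun h1 => hp.not_isUnit (Int.isUnit_iff_natAbs_eq.2 h1)
  obtain ⟨a', ha, ha'⟩ :=
    (Int.finiteMultiplicity_iff.2 ⟨hpu, ha0⟩).exists_eq_pow_mul_and_not_dvd
  obtain ⟨b', hb, hb'⟩ :=
    (Int.finiteMultiplicity_iff.2 ⟨hpu, hb0⟩).exists_eq_pow_mul_and_not_dvd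
  obtain ⟨c', hc, hc'⟩ :=
    (Int.finiteMultiplicity_iff.2 ⟨hpu, hc0⟩).exists_eq_pow_mul_and_not_dvd
  generalize multiplicity p a = i at ha
  generalize multiplicity p b = j at hb
  generalize multiplicity p c = k at hc
  rcases le_total i j with hij | hij
  · rcases le_total j k with hjk | hjk
    · exact h.evenAt_aux hp h3 ha hb hc ha' hb' hij hjk
    · rcases le_total i k with hik | hik
      · -- i ≤ k ≤ j : order a c b
        have := h.rotate.rotate.swap.evenAt_aux hp h3 ha hc hb ha' hc' hik hjk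
        exact this.swap.rotate
      · -- k ≤ i ≤ j : order c a b
        have := h.rotate.rotate.evenAt_aux hp h3 hc ha hb hc' ha' hik hij
        exact this.rotate
  · rcases le_total i k with hik | hik
    · -- j ≤ i ≤ k
      exact (h.swap.evenAt_aux hp h3 hb ha hc hb' ha' hij hik).swap
    · rcases le_total j k with hjk | hjk
      · -- j ≤ k ≤ i : order b c a
        exact (h.rotate.evenAt_aux hp h3 hb hc ha hb' hc' hjk hik).rotate.rotate
      · -- k ≤ j ≤ i : order c b a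
        exact (h.rotate.swap.evenAt_aux hp h3 hc hb ha hc' hb' hjk hij).swap.rotate.rotate

end Pool.Agent.Helper51.Tors
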