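import Mathlib

set_option autoImplicit false

namespace Pool.Agent.Helper51.Tors

/-- The curve `y² = (x + bc)(x + ac)(x + ab)`, isomorphic to `y² = (ax+1)(bx+1)(cx+1)`. -/
def curve (a b c : ℕ) : WeierstrassCurve ℚ :=
  WeierstrassCurve.mk (0 : ℚ) ((a : ℚ) * b + (a : ℚ) * c + (b : ℚ) * c) 0
    ((a : ℚ) * b * c * ((a : ℚ) + b + c)) (((a : ℚ) * b * c) ^ 2)

/-- a rational point of order three gives the vanishing of the 3-division polynomial -/
theorem exists_three (a b c : ℕ)
    (P : (curve a b c).toAffine.Point) (hP0 : P ≠ 0) (hP3 : 3 • P = 0) :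
    ∃ x y : ℚ, y ≠ 0 ∧ y ^ 2 = (x + a * b) * (x + a * c) * (x + b * c) ∧
      (3 * x ^ 2 + 2 * ((a : ℚ) * b + a * c + b * c) * x + a * b * c * (a + b + c)) ^ 2
        = 4 * y ^ 2 * (a * b + a * c + b * c + 3 * x) := by
  rcases P with _ | ⟨x, y, h⟩
  · exact absurd rfl hP0
  · have h2 : WeierstrassCurve.Affine.Point.some x y h + WeierstrassCurve.Affine.Point.some x y h
        = - WeierstrassCurve.Affine.Point.some x y h := by
      have : (3 : ℕ) • WeierstrassCurve.Affine.Point.some x y h =
          WeierstrassCurve.Affine.Point.some x y h + WeierstrassCurve.Affine.Point.some x y h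
          + WeierstrassCurve.Affine.Point.some x y h := by
        rw [succ_nsmul, two_nsmul]
      rw [this] at hP3
      exact eq_neg_of_add_eq_zero_left hP3
    have hY : y ≠ (curve a b c).toAffine.negY x y := by
      intro hy
      rw [WeierstrassCurve.Affine.Point.add_self_of_Y_eq hy] at h2
      rw [eq_comm, neg_eq_zero] at h2
      exact hP0 h2
    rw [WeierstrassCurve.Affine.Point.add_self_of_Y_ne hY,
      WeierstrassCurve.Affine.Point.neg_some] at h2
    have hx : (curve a b c).toAffine.addX x x ((curve a b c).toAffine.slope x x y y) = x := by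
      have := (WeierstrassCurve.Affine.Point.some.injEq _ _ _ _ _ _).mp h2
      exact this.1
    have heq := (WeierstrassCurve.Affine.equation_iff x y).1 h.1
    rw [WeierstrassCurve.Affine.slope_of_Y_ne rfl hY] at hx
    simp only [WeierstrassCurve.Affine.negY, WeierstrassCurve.Affine.addX, curve] at hx heq hY
    have hy0 : y ≠ 0 := by
      intro h0
      apply hY
      rw [h0]; ring
    refine ⟨x, y, hy0, ?_, ?_⟩
    · linear_combination heq
    · have h2y : y - (-y - 0 * x - 0) = 2 * y := by ring
      rw [h2y] at hx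
      have h2y0 : (2 * y) ≠ 0 := mul_ne_zero two_ne_zero hy0
      field_simp at hx
      linear_combination hx

end Pool.Agent.Helper51.Tors
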