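import Pool.Agent.Helper51.Tors.FromTorsion

set_option autoImplicit false

namespace Pool.Agent.Helper51.Tors.ResidueCondition

open Pool.Agent.Helper51.Tors

/-- If natural numbers `a`, `b`, `c` induce a curve `y² = (x+bc)(x+ac)(x+ab)` with torsion
`ℤ/2 × ℤ/6`, then for every prime `p ≡ 1 mod 3` dividing one of the three numbers, the product of
the other two is a square modulo `p`. -/
theorem result (a b c : ℕ)
    (htors : Nonempty
        (↥(AddCommGroup.torsion
            (WeierstrassCurve.mk (0 : ℚ)
              ((a : ℚ) * b + (a : ℚ) * c + (b : ℚ) * c) 0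
              ((a : ℚ) * b * c * ((a : ℚ) + b + c))
              (((a : ℚ) * b * c) ^ 2)).toAffine.Point)
          ≃+ (ZMod 2 × ZMod 6)))
    (p : ℕ) (hp : p.Prime) (hp3 : p % 3 = 1) :
    (p ∣ a → IsSquare ((b : ZMod p) * c)) ∧ (p ∣ b → IsSquare ((a : ZMod p) * c)) ∧
      (p ∣ c → IsSquare ((a : ZMod p) * b)) := by
  obtain ⟨u, v, w, d, h⟩ := data_of_torsion a b c htors
  have : Fact p.Prime := ⟨hp⟩
  refine ⟨fun hd => ?_, fun hd => ?_, fun hd => ?_⟩
  · have := h.isSquare hp3 (by exact_mod_cast hd)
    simpa using this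
  · have := h.rotate.isSquare hp3 (by exact_mod_cast hd)
    rw [mul_comm]
    simpa using this
  · have := h.rotate.rotate.isSquare hp3 (by exact_mod_cast hd)
    simpa using this

end Pool.Agent.Helper51.Tors.ResidueCondition
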